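import Pool.Agent.T2H61.Geo.Red

/-!
# The isomorphism problem for geodetic graphs is GI-complete

Given a graph `X` on `{0, …, n-1}`, `n ≥ 1`, take the complete graph on the vertices `i` with every
edge subdivided twice, so that the edge `i j` becomes the path `i, (i, j), (j, i), j`; attach two
pendant vertices to every `i`, and one pendant vertex to `(i, j)` and to `(j, i)` for every edge
`i j` of `X`. This graph is geodetic, it can be computed in polynomial time, and it determines `X`
up to isomorphism.
-/

set_option autoImplicit false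

namespace Pool.Agent.Results.MP_f934c9_lc.GeodeticGIComplete

open Pool.Agent.NPC Pool.Agent.NPC.R671

/-- A graph is geodetic if it is connected and every pair of vertices is joined by exactly one
shortest path. -/
def Geodetic {V : Type} (G : SimpleGraph V) : Prop :=
  G.Connected ∧ ∀ u v, ∃! p : G.Walk u v, p.IsPath ∧ p.length = G.dist u v

/-- The graph isomorphism problem: the input consists of the adjacency matrices of two finite
graphs, and the question is whether the graphs are isomorphic. -/
def GraphIso (p : List (List Bool) × List (List Bool)) : Prop :=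
  ∃ (n m : ℕ) (X : SimpleGraph (Fin n)) (Y : SimpleGraph (Fin m)),
    adjMatrix X = p.1 ∧ adjMatrix Y = p.2 ∧ Nonempty (X ≃g Y)

/-- There is a polynomial-time algorithm which, for every pair of geodetic graphs, given by their
adjacency matrices, decides whether they are isomorphic. -/
def GeodeticIsoInP : Prop :=
  ∃ A : List Bool → List Bool, PolyTime A ∧
    ∀ (n m : ℕ) (X : SimpleGraph (Fin n)) (Y : SimpleGraph (Fin m)), Geodetic X → Geodetic Y →
      (A (bits (adjMatrix X, adjMatrix Y)) = [true] ↔ Nonempty (X ≃g Y))

/-- The length of the input is at least the number of the vertices and at most a polynomial in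
it. -/
theorem length_bits : ∃ p : Polynomial ℕ, ∀ (n m : ℕ) (X : SimpleGraph (Fin n))
    (Y : SimpleGraph (Fin m)), n + m ≤ (bits (adjMatrix X, adjMatrix Y)).length ∧
      (bits (adjMatrix X, adjMatrix Y)).length ≤ p.eval (n + m) := by
  have h1 : ∀ (n : ℕ) (X : SimpleGraph (Fin n)), n ≤ sz (adjMatrix X) ∧
      sz (adjMatrix X) ≤ n * (4 * n + 1 + 1) + 1 := by
    intro n X
    have hlen : (adjMatrix X).length = n := by simp [adjMatrix]
    constructor
    · have : ∀ l : List (List Bool), l.length ≤ sz l := by
        intro l
        induction l with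
        | nil => simp
        | cons a l ih =>
          rw [sz_list_cons, List.length_cons]
          omega
      have h := this (adjMatrix X)
      rwa [hlen] at h
    · refine (sz_le_length_mul (adjMatrix X) (4 * n + 1) fun x hx => ?_).trans (by rw [hlen])
      unfold adjMatrix at hx
      rw [List.mem_ofFn] at hx
      obtain ⟨i, rfl⟩ := hx
      refine (sz_listBool_le _).trans ?_
      simp
  refine ⟨(Polynomial.X * (4 * Polynomial.X + 1 + 1) + 1) +
    (Polynomial.X * (4 * Polynomial.X + 1 + 1) + 1) + 1, fun n m X Y => ?_⟩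
  obtain ⟨a1, a2⟩ := h1 n X
  obtain ⟨b1, b2⟩ := h1 m Y
  rw [bits_length, sz_pair]
  refine ⟨by omega, ?_⟩
  simp only [Polynomial.eval_add, Polynomial.eval_mul, Polynomial.eval_X, Polynomial.eval_one,
    Polynomial.eval_ofNat]
  nlinarith

/-- **The isomorphism problem for geodetic graphs is GI-complete.**

* Graph isomorphism for arbitrary finite graphs reduces in polynomial time to isomorphism of
  geodetic graphs: for *every* bit string `x`, `f x` codes a pair of geodetic graphs, which are
  isomorphic iff `x` is a yes-instance of the graph isomorphism problem.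
* There is a polynomial-time algorithm for isomorphism of geodetic graphs if and only if graph
  isomorphism for arbitrary graphs is in `P`. Here polynomial time may be measured in the number of
  the vertices. -/
theorem result :
    (∃ f : List Bool → List Bool, PolyTime f ∧ ∀ x : List Bool,
      ∃ (n m : ℕ) (X : SimpleGraph (Fin n)) (Y : SimpleGraph (Fin m)),
        f x = bits (adjMatrix X, adjMatrix Y) ∧ Geodetic X ∧ Geodetic Y ∧
          (x ∈ lang GraphIso ↔ Nonempty (X ≃g Y))) ∧
    (GeodeticIsoInP ↔ InP (lang GraphIso)) ∧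
    (∃ p : Polynomial ℕ, ∀ (n m : ℕ) (X : SimpleGraph (Fin n)) (Y : SimpleGraph (Fin m)),
      n + m ≤ (bits (adjMatrix X, adjMatrix Y)).length ∧
        (bits (adjMatrix X, adjMatrix Y)).length ≤ p.eval (n + m)) := by
  have hmain : ∃ f : List Bool → List Bool, PolyTime f ∧ ∀ x : List Bool,
      ∃ (n m : ℕ) (X : SimpleGraph (Fin n)) (Y : SimpleGraph (Fin m)),
        f x = bits (adjMatrix X, adjMatrix Y) ∧ Geodetic X ∧ Geodetic Y ∧
          (x ∈ lang GraphIso ↔ Nonempty (X ≃g Y)) := Pool.Agent.T2H61.Geo.main
  have hcode : ∀ (n m : ℕ) (X : SimpleGraph (Fin n)) (Y : SimpleGraph (Fin m)),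
      bits (adjMatrix X, adjMatrix Y) ∈ lang GraphIso ↔ Nonempty (X ≃g Y) := by
    intro n m X Y
    rw [bits_mem_lang]
    exact Pool.Agent.T2H61.Geo.graphIso_bits X Y
  refine ⟨hmain, ⟨?_, ?_⟩, length_bits⟩
  · rintro ⟨A, hA, h⟩
    obtain ⟨f, hf, h1⟩ := hmain
    refine InP.of_reduces (L' := {y | A y = [true]}) ⟨f, hf, fun x => ?_⟩ ⟨A, hA, fun y => Iff.rfl⟩
    obtain ⟨n, m, X, Y, h2, h3, h4, h5⟩ := h1 x
    rw [h5, ← h n m X Y h3 h4, ← h2]
    exact Iff.rfl
  · rintro ⟨A, hA, h⟩
    refine ⟨A, hA, fun n m X Y _ _ => ?_⟩
    rw [← h, hcode]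

end Pool.Agent.Results.MP_f934c9_lc.GeodeticGIComplete
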